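import Pool.Agent.Q191.WT.Stmts

/-! MP_7e3bdd_an, crowd lemma WT.Amp (helper37): `r ⊗ 1` for a unitary `r`. -/

set_option autoImplicit false
open scoped InnerProductSpace
open Filter Topology

namespace Pool.Agent.Q191.WT

namespace AmpAux

variable {H₁ H₂ H : Type} [NormedAddCommGroup H₁] [InnerProductSpace ℂ H₁] [CompleteSpace H₁]
  [NormedAddCommGroup H₂] [InnerProductSpace ℂ H₂] [CompleteSpace H₂]
  [NormedAddCommGroup H] [InnerProductSpace ℂ H] [CompleteSpace H]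

/-- the lift of `T (r ·) ·` -/
noncomputable def lift (T : H₁ → H₂ → H) (r : H₁ → H₁) : ((H₁ × H₂) →₀ ℂ) →ₗ[ℂ] H :=
  Finsupp.linearCombination ℂ fun p : H₁ × H₂ => T (r p.1) p.2

theorem lift_inner {T : H₁ → H₂ → H} (hT : IsTP T) (r : H₁ → H₁)
    (hr : ∀ a b, ⟪r a, r b⟫_ℂ = ⟪a, b⟫_ℂ) (z : (H₁ × H₂) →₀ ℂ) :
    ⟪lift T r z, lift T r z⟫_ℂ = ⟪lift T id z, lift T id z⟫_ℂ := by
  unfold lift
  simp only [Finsupp.linearCombination_apply, Finsupp.sum, sum_inner, inner_sum, inner_smul_left,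
    inner_smul_right, hT.inner, hr, id_eq]

theorem lift_norm {T : H₁ → H₂ → H} (hT : IsTP T) (r : H₁ → H₁)
    (hr : ∀ a b, ⟪r a, r b⟫_ℂ = ⟪a, b⟫_ℂ) (z : (H₁ × H₂) →₀ ℂ) :
    ‖lift T r z‖ = ‖lift T id z‖ := by
  have h := lift_inner hT r hr z
  rw [inner_self_eq_norm_sq_to_K, inner_self_eq_norm_sq_to_K] at h
  have h2 : ‖lift T r z‖ ^ 2 = ‖lift T id z‖ ^ 2 := by exact_mod_cast h
  exact (sq_eq_sq₀ (norm_nonneg _) (norm_nonneg _)).1 h2

theorem lift_single (T : H₁ → H₂ → H) (r : H₁ → H₁) (a : H₁) (b : H₂) :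
    lift T r (Finsupp.single (a, b) 1) = T (r a) b := by
  unfold lift
  simp

theorem dense {T : H₁ → H₂ → H} (hT : IsTP T) : DenseRange (lift T id) := by
  have h : (LinearMap.range (lift T id)).topologicalClosure = ⊤ := by
    rw [Submodule.topologicalClosure_eq_top_iff, Submodule.eq_bot_iff]
    intro ζ hζ
    refine hT.total ζ fun a b => ?_
    rw [Submodule.mem_orthogonal] at hζ
    exact hζ _ ⟨Finsupp.single (a, b) 1, lift_single T id a b⟩
  have h2 := (Submodule.dense_iff_topologicalClosure_eq_top).2 h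
  exact h2

theorem ext_T {T : H₁ → H₂ → H} (hT : IsTP T) {A B : H →L[ℂ] H}
    (h : ∀ a b, A (T a b) = B (T a b)) : A = B := by
  have h1 : ∀ ζ : H, (ContinuousLinearMap.adjoint (A - B)) ζ = 0 := by
    intro ζ
    refine hT.total _ fun a b => ?_
    rw [ContinuousLinearMap.adjoint_inner_right, ContinuousLinearMap.sub_apply, h a b, sub_self,
      inner_zero_left]
  refine ContinuousLinearMap.ext fun x => ?_
  have h2 : ⟪(A - B) x, (A - B) x⟫_ℂ = 0 := by
    rw [← ContinuousLinearMap.adjoint_inner_right, h1, inner_zero_right]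
  have h3 := inner_self_eq_zero.1 h2
  rw [ContinuousLinearMap.sub_apply] at h3
  exact sub_eq_zero.1 h3

theorem exists_amp {T : H₁ → H₂ → H} (hT : IsTP T) (r : H₁ →L[ℂ] H₁)
    (hr : ∀ a b, ⟪r a, r b⟫_ℂ = ⟪a, b⟫_ℂ) : ∃ R : H →L[ℂ] H, Amp1 T r R := by
  refine ⟨(lift T r).extendOfNorm (lift T id), fun a b => ?_⟩
  have h := LinearMap.extendOfNorm_eq (f := lift T r) (e := lift T id) (dense hT)
    ⟨1, fun z => by rw [lift_norm hT r hr, one_mul]⟩ (Finsupp.single (a, b) 1)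
  rw [lift_single, lift_single] at h
  exact h

theorem unitary_inner {r : H₁ →L[ℂ] H₁} (hr : r ∈ unitary (H₁ →L[ℂ] H₁)) (a b : H₁) :
    ⟪r a, r b⟫_ℂ = ⟪a, b⟫_ℂ := by
  have h : (star r * r) b = b := by
    rw [(Unitary.mem_iff.1 hr).1]
    rfl
  rw [← ContinuousLinearMap.adjoint_inner_right, ← ContinuousLinearMap.star_eq_adjoint]
  change ⟪a, (star r * r) b⟫_ℂ = _
  rw [h]

end AmpAux

open AmpAux in
theorem Amp : TaskAmp := by
  intro H₁ H₂ H _ _ _ _ _ _ _ _ _ T hT r hr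
  have hr' : star r ∈ unitary (H₁ →L[ℂ] H₁) := Unitary.star_mem hr
  obtain ⟨R, hR⟩ := exists_amp hT r (unitary_inner hr)
  obtain ⟨R', hR'⟩ := exists_amp hT (star r) (unitary_inner hr')
  have hstar : star R = R' := by
    refine ext_T hT fun a b => ?_
    rw [← sub_eq_zero]
    refine hT.total _ fun a' b' => ?_
    rw [inner_sub_right, hR' a b, ContinuousLinearMap.star_eq_adjoint,
      ContinuousLinearMap.adjoint_inner_right, hR a' b', hT.inner, hT.inner,
      ContinuousLinearMap.star_eq_adjoint, ContinuousLinearMap.adjoint_inner_right, sub_self]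
  have h1 : R' * R = 1 := by
    refine ext_T hT fun a b => ?_
    change R' (R (T a b)) = T a b
    rw [hR a b, hR' (r a) b]
    change T ((star r * r) a) b = T a b
    rw [(Unitary.mem_iff.1 hr).1]
    rfl
  have h2 : R * R' = 1 := by
    refine ext_T hT fun a b => ?_
    change R (R' (T a b)) = T a b
    rw [hR' a b, hR (star r a) b]
    change T ((r * star r) a) b = T a b
    rw [(Unitary.mem_iff.1 hr).2]
    rfl
  refine ⟨R, Unitary.mem_iff.2 ⟨by rw [hstar, h1], by rw [hstar, h2]⟩, hR, ?_⟩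
  rw [hstar]
  exact hR'

end Pool.Agent.Q191.WT
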