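import Mathlib
import Pool.Agent.Y671.WD.Abs

/-!
# Blueprint (helper191): tensor products of inclusions with the weak relative Dixmier property

`Av N`: the averaging maps `x ↦ ∑ λ_k u_k x u_k*`, `u_k ∈ U(N)`. `Sv N`: their point-weak closure.
If every `x ∈ M` can be averaged to a scalar then one `Θ ∈ Sv N` sends all of `M` to scalars; with
slice maps this gives the property for `N₁ ⊗ N₂ ⊆ M₁ ⊗ M₂`.
-/

set_option autoImplicit false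
open scoped InnerProductSpace
open Filter Topology Pool.Agent.Y671.WD

namespace Pool.Agent.Q191.WT

section

variable {H : Type} [NormedAddCommGroup H] [InnerProductSpace ℂ H] [CompleteSpace H]

/-- the averaging maps of `N` -/
def Av (N : VonNeumannAlgebra H) : Set ((H →L[ℂ] H) → (H →L[ℂ] H)) :=
  convexHull ℝ {Φ | ∃ u ∈ unitary (H →L[ℂ] H), u ∈ N ∧ Φ = fun x => u * x * star u}

/-- their closure in the point-weak topology -/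
def Sv (N : VonNeumannAlgebra H) : Set ((H →L[ℂ] H) → (H →L[ℂ] H)) :=
  {Θ | ∀ (n : ℕ) (x : Fin n → H →L[ℂ] H) (ξ η : Fin n → H) (ε : ℝ), 0 < ε →
    ∃ Φ ∈ Av N, ∀ i, ‖⟪η i, (Φ (x i) - Θ (x i)) (ξ i)⟫_ℂ‖ < ε}

end

section

variable {H₁ H₂ H : Type} [NormedAddCommGroup H₁] [InnerProductSpace ℂ H₁] [CompleteSpace H₁]
  [NormedAddCommGroup H₂] [InnerProductSpace ℂ H₂] [CompleteSpace H₂]
  [NormedAddCommGroup H] [InnerProductSpace ℂ H] [CompleteSpace H]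

/-- `H` is the Hilbert space tensor product of `H₁` and `H₂`, and `T ξ η = ξ ⊗ η` -/
structure IsTP (T : H₁ → H₂ → H) : Prop where
  add_left : ∀ a a' b, T (a + a') b = T a b + T a' b
  add_right : ∀ a b b', T a (b + b') = T a b + T a b'
  smul_left : ∀ (c : ℂ) a b, T (c • a) b = c • T a b
  smul_right : ∀ (c : ℂ) a b, T a (c • b) = c • T a b
  inner : ∀ a b a' b', ⟪T a b, T a' b'⟫_ℂ = ⟪a, a'⟫_ℂ * ⟪b, b'⟫_ℂ
  total : ∀ ζ : H, (∀ a b, ⟪T a b, ζ⟫_ℂ = 0) → ζ = 0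

/-- `A = a ⊗ 1` -/
def Amp1 (T : H₁ → H₂ → H) (a : H₁ →L[ℂ] H₁) (A : H →L[ℂ] H) : Prop := ∀ ξ η, A (T ξ η) = T (a ξ) η

/-- `B = 1 ⊗ b` -/
def Amp2 (T : H₁ → H₂ → H) (b : H₂ →L[ℂ] H₂) (B : H →L[ℂ] H) : Prop := ∀ ξ η, B (T ξ η) = T ξ (b η)

/-- `M = M₁ ⊗ M₂`, as the commutant of `M₁' ⊗ 1` and `1 ⊗ M₂'` -/
def IsTensor (T : H₁ → H₂ → H) (M₁ : VonNeumannAlgebra H₁) (M₂ : VonNeumannAlgebra H₂)
    (M : VonNeumannAlgebra H) : Prop :=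
  ∀ x : H →L[ℂ] H, x ∈ M ↔
    (∀ r ∈ M₁.commutant, ∀ R : H →L[ℂ] H, Amp1 T r R → R * x = x * R) ∧
    ∀ r ∈ M₂.commutant, ∀ R : H →L[ℂ] H, Amp2 T r R → R * x = x * R

end

/-! ## One algebra -/

/-- (20 lines) composition of averaging maps: `convexHull_min` twice -/
def TaskAvComp : Prop := ∀ (H : Type) [NormedAddCommGroup H] [InnerProductSpace ℂ H]
  [CompleteSpace H] (N : VonNeumannAlgebra H), ∀ Φ ∈ Av N, ∀ Ψ ∈ Av N, (fun x => Φ (Ψ x)) ∈ Av N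

/-- (30 lines) simple properties of averaging maps, by `convexHull_min` (for the last one use the set of
all `Φ` with this property: it is convex, lists of length `m + m'`) -/
def TaskAvProp : Prop := ∀ (H : Type) [NormedAddCommGroup H] [InnerProductSpace ℂ H]
  [CompleteSpace H] (N : VonNeumannAlgebra H), ∀ Φ ∈ Av N,
  (∀ x, ‖Φ x‖ ≤ ‖x‖) ∧ (∀ (c : ℂ) x, Φ (c • x) = c • Φ x) ∧ (∀ c : ℂ, Φ (c • 1) = c • 1) ∧
  (∀ r, (∀ u ∈ N, r * u = u * r) → ∀ x, r * x = x * r → r * Φ x = Φ x * r) ∧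
  ∀ ξ η : H, ∃ (m : ℕ) (a : Fin m → ℂ) (α β : Fin m → H),
    ∀ x : H →L[ℂ] H, ⟪η, Φ x ξ⟫_ℂ = ∑ k, a k * ⟪β k, x (α k)⟫_ℂ

/-- (30 lines) the properties pass to `Sv N`; norm bound as in `CC_norm` of Pool/Agent/Q191/WX/Union.lean -/
def TaskSvProp : Prop := TaskAvProp → ∀ (H : Type) [NormedAddCommGroup H] [InnerProductSpace ℂ H]
  [CompleteSpace H] (N : VonNeumannAlgebra H), ∀ Θ ∈ Sv N,
  (∀ x, ‖Θ x‖ ≤ ‖x‖) ∧ (∀ (c : ℂ) x, Θ (c • x) = c • Θ x) ∧ (∀ c : ℂ, Θ (c • 1) = c • 1) ∧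
  ∀ M : VonNeumannAlgebra H, (∀ u ∈ N, u ∈ M) → ∀ x ∈ M, Θ x ∈ M

/-- (30 lines) `Sv N` is closed under composition: first approximate `Θ` at the points `Θ' (x i)` by `Φ ∈ Av N`, then
`Θ'` at the points `x i` and the vectors of the last part of `TaskAvProp` for `Φ` -/
def TaskSvComp : Prop := TaskAvProp → TaskAvComp → ∀ (H : Type) [NormedAddCommGroup H]
  [InnerProductSpace ℂ H] [CompleteSpace H] (N : VonNeumannAlgebra H),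
  ∀ Θ ∈ Sv N, ∀ Θ' ∈ Sv N, (fun x => Θ (Θ' x)) ∈ Sv N

/-- (30 lines) compactness. Use `exists_avg` and `ul`, `ul_spec`, `ul_mean` of Pool/Agent/Q191/WX/{Avg,Union}.lean
(a bounded family of operators has a weak limit along an ultrafilter) -/
def TaskLim : Prop := TaskSvProp → TaskAvProp → ∀ (H : Type) [NormedAddCommGroup H]
  [InnerProductSpace ℂ H] [CompleteSpace H] (N : VonNeumannAlgebra H) (ι : Type) (U : Ultrafilter ι)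
  (Θ : ι → (H →L[ℂ] H) → (H →L[ℂ] H)), (∀ j, Θ j ∈ Sv N) →
  ∃ Θ' ∈ Sv N, ∀ x (ξ η : H), Tendsto (fun j => ⟪η, Θ j x ξ⟫_ℂ) U (𝓝 ⟪η, Θ' x ξ⟫_ℂ)

/-- (30 lines) index set: `Finset (H × H) × ℕ` (`ε = 1/(n+1)`) with the ultrafilter `Ultrafilter.of atTop` -/
def TaskOne : Prop := TaskLim → TaskSvProp → TaskAvProp → ∀ (H : Type) [NormedAddCommGroup H]
  [InnerProductSpace ℂ H] [CompleteSpace H] (N : VonNeumannAlgebra H) (x : H →L[ℂ] H) (c : ℂ),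
  (∀ (n : ℕ) (ξ η : Fin n → H) (ε : ℝ), 0 < ε →
    ∃ y ∈ convexHull ℝ {T : H →L[ℂ] H | ∃ u ∈ unitary (H →L[ℂ] H), u ∈ N ∧ T = u * x * star u},
      ∀ i : Fin n, ‖⟪η i, (y - c • (1 : H →L[ℂ] H)) (ξ i)⟫_ℂ‖ < ε) → ∃ Θ ∈ Sv N, Θ x = c • 1

/-- (20 lines) the converse -/
def TaskBack : Prop := ∀ (H : Type) [NormedAddCommGroup H] [InnerProductSpace ℂ H]
  [CompleteSpace H] (N : VonNeumannAlgebra H) (x : H →L[ℂ] H) (c : ℂ) (Θ : (H →L[ℂ] H) → (H →L[ℂ] H)),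
  Θ ∈ Sv N → Θ x = c • 1 → ∀ (n : ℕ) (ξ η : Fin n → H) (ε : ℝ), 0 < ε →
    ∃ y ∈ convexHull ℝ {T : H →L[ℂ] H | ∃ u ∈ unitary (H →L[ℂ] H), u ∈ N ∧ T = u * x * star u},
      ∀ i : Fin n, ‖⟪η i, (y - c • (1 : H →L[ℂ] H)) (ξ i)⟫_ℂ‖ < ε

/-- (40 lines) one map for all of `M`: for finite sets by induction (`TaskOne`, `TaskSvComp`), then `TaskLim` along
`Ultrafilter.of atTop` on `Finset (H →L[ℂ] H)` -/
def TaskCommon : Prop := TaskOne → TaskSvComp → TaskSvProp → TaskLim → TaskAvProp → TaskAvComp →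
  ∀ (H : Type) [NormedAddCommGroup H] [InnerProductSpace ℂ H] [CompleteSpace H]
  (N M : VonNeumannAlgebra H), (∀ a ∈ N, a ∈ M) → WRDP N M →
  ∃ Θ ∈ Sv N, ∀ x ∈ M, ∃ c : ℂ, Θ x = c • 1

/-! ## Tensor products -/

/-- (30 lines) `r ⊗ 1` for a unitary `r` (on the algebraic tensor product `H₁ ⊗[ℂ] H₂`, with the lift `e` of `T` and
the lift `f` of `T (r ·) ·` one has `‖f z‖ = ‖e z‖`; `LinearMap.extendOfNorm`, see `exists_right` in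
Pool/Agent/Y671/WD/Trace.lean; density of the range from `total`) -/
def TaskAmp : Prop := ∀ (H₁ H₂ H : Type) [NormedAddCommGroup H₁] [InnerProductSpace ℂ H₁]
  [CompleteSpace H₁] [NormedAddCommGroup H₂] [InnerProductSpace ℂ H₂] [CompleteSpace H₂]
  [NormedAddCommGroup H] [InnerProductSpace ℂ H] [CompleteSpace H] (T : H₁ → H₂ → H), IsTP T →
  ∀ r ∈ unitary (H₁ →L[ℂ] H₁), ∃ R ∈ unitary (H →L[ℂ] H), Amp1 T r R ∧ Amp1 T (star r) (star R)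

/-- (5 lines) exchange the factors -/
def TaskFlip : Prop := ∀ (H₁ H₂ H : Type) [NormedAddCommGroup H₁] [InnerProductSpace ℂ H₁]
  [CompleteSpace H₁] [NormedAddCommGroup H₂] [InnerProductSpace ℂ H₂] [CompleteSpace H₂]
  [NormedAddCommGroup H] [InnerProductSpace ℂ H] [CompleteSpace H] (T : H₁ → H₂ → H), IsTP T →
  IsTP (fun b a => T a b) ∧ ∀ (M₁ : VonNeumannAlgebra H₁) (M₂ : VonNeumannAlgebra H₂)
    (M : VonNeumannAlgebra H), IsTensor T M₁ M₂ M → IsTensor (fun b a => T a b) M₂ M₁ M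

/-- (15 lines) the slice maps: `V η : ξ ↦ T ξ η` is bounded, `E = (V η')* x (V η)` -/
def TaskSlice : Prop := ∀ (H₁ H₂ H : Type) [NormedAddCommGroup H₁] [InnerProductSpace ℂ H₁]
  [CompleteSpace H₁] [NormedAddCommGroup H₂] [InnerProductSpace ℂ H₂] [CompleteSpace H₂]
  [NormedAddCommGroup H] [InnerProductSpace ℂ H] [CompleteSpace H] (T : H₁ → H₂ → H), IsTP T →
  ∀ (x : H →L[ℂ] H) (η η' : H₂), ∃ E : H₁ →L[ℂ] H₁, ∀ ξ ξ', ⟪ξ', E ξ⟫_ℂ = ⟪T ξ' η', x (T ξ η)⟫_ℂ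

/-- (25 lines) slices of elements of `M` are in `M₁`: they commute with the unitaries of `M₁'` by `TaskAmp`, hence with
`M₁'` (`comm_of_unitary` in Pool/Agent/Y671/WD/Trace.lean), and `M₁'' = M₁` -/
def TaskSliceMem : Prop := TaskAmp → ∀ (H₁ H₂ H : Type) [NormedAddCommGroup H₁]
  [InnerProductSpace ℂ H₁] [CompleteSpace H₁] [NormedAddCommGroup H₂] [InnerProductSpace ℂ H₂]
  [CompleteSpace H₂] [NormedAddCommGroup H] [InnerProductSpace ℂ H] [CompleteSpace H]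
  (T : H₁ → H₂ → H), IsTP T → ∀ (M₁ : VonNeumannAlgebra H₁) (M₂ : VonNeumannAlgebra H₂)
  (M : VonNeumannAlgebra H), IsTensor T M₁ M₂ M → ∀ x ∈ M, ∀ (η η' : H₂) (E : H₁ →L[ℂ] H₁),
  (∀ ξ ξ', ⟪ξ', E ξ⟫_ℂ = ⟪T ξ' η', x (T ξ η)⟫_ℂ) → E ∈ M₁

/-- (30 lines) `Φ ⊗ id` for an averaging map `Φ`: by `convexHull_min`, from `TaskAmp`; `u ⊗ 1 ∈ N` by the definition of
`IsTensor` (it commutes with `r ⊗ 1`, `r ∈ N₁'`, and with `1 ⊗ r`; use `total`) -/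
def TaskAvTensor : Prop := TaskAmp → ∀ (H₁ H₂ H : Type) [NormedAddCommGroup H₁]
  [InnerProductSpace ℂ H₁] [CompleteSpace H₁] [NormedAddCommGroup H₂] [InnerProductSpace ℂ H₂]
  [CompleteSpace H₂] [NormedAddCommGroup H] [InnerProductSpace ℂ H] [CompleteSpace H]
  (T : H₁ → H₂ → H), IsTP T → ∀ (N₁ : VonNeumannAlgebra H₁) (N₂ : VonNeumannAlgebra H₂)
  (N : VonNeumannAlgebra H), IsTensor T N₁ N₂ N → ∀ Φ ∈ Av N₁, ∃ Ψ ∈ Av N,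
  ∀ (x : H →L[ℂ] H) (η η' : H₂) (E : H₁ →L[ℂ] H₁), (∀ ξ ξ', ⟪ξ', E ξ⟫_ℂ = ⟪T ξ' η', x (T ξ η)⟫_ℂ) →
    ∀ ξ ξ', ⟪ξ', Φ E ξ⟫_ℂ = ⟪T ξ' η', Ψ x (T ξ η)⟫_ℂ

/-- (40 lines) `Θ ⊗ id` for `Θ ∈ Sv N₁`. Index set `Finset ((H₁ →L[ℂ] H₁) × H₁ × H₁) × ℕ`, `Ultrafilter.of atTop`:
choose `Φ_j ∈ Av N₁` close to `Θ`, `Ψ_j` by `TaskAvTensor`, and take the limit of the `Ψ_j` by `TaskLim` -/
def TaskSvTensor : Prop := TaskAmp → TaskAvTensor → TaskLim → TaskSvProp → TaskAvProp →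
  ∀ (H₁ H₂ H : Type) [NormedAddCommGroup H₁]
  [InnerProductSpace ℂ H₁] [CompleteSpace H₁] [NormedAddCommGroup H₂] [InnerProductSpace ℂ H₂]
  [CompleteSpace H₂] [NormedAddCommGroup H] [InnerProductSpace ℂ H] [CompleteSpace H]
  (T : H₁ → H₂ → H), IsTP T → ∀ (N₁ : VonNeumannAlgebra H₁) (N₂ : VonNeumannAlgebra H₂)
  (N : VonNeumannAlgebra H), IsTensor T N₁ N₂ N → ∀ Θ ∈ Sv N₁, ∃ Ψ ∈ Sv N,
  ∀ (x : H →L[ℂ] H) (η η' : H₂) (E : H₁ →L[ℂ] H₁), (∀ ξ ξ', ⟪ξ', E ξ⟫_ℂ = ⟪T ξ' η', x (T ξ η)⟫_ℂ) →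
    ∀ ξ ξ', ⟪ξ', Θ E ξ⟫_ℂ = ⟪T ξ' η', Ψ x (T ξ η)⟫_ℂ

/-- (25 lines) an operator all of whose slices are scalars is of the form `1 ⊗ y` (`y = (V e)* z (V e)` for a unit
vector `e`, `V e : η ↦ T e η`); and then `y ∈ M₂` if `z ∈ M` (apply `TaskSliceMem` to the flipped `T`) -/
def TaskScalarSlices : Prop := TaskAmp → TaskFlip → TaskSlice → TaskSliceMem →
  ∀ (H₁ H₂ H : Type) [NormedAddCommGroup H₁]
  [InnerProductSpace ℂ H₁] [CompleteSpace H₁] [NormedAddCommGroup H₂] [InnerProductSpace ℂ H₂]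
  [CompleteSpace H₂] [NormedAddCommGroup H] [InnerProductSpace ℂ H] [CompleteSpace H]
  [Nontrivial H₁] (T : H₁ → H₂ → H), IsTP T → ∀ (M₁ : VonNeumannAlgebra H₁)
  (M₂ : VonNeumannAlgebra H₂) (M : VonNeumannAlgebra H), IsTensor T M₁ M₂ M → ∀ z ∈ M,
  (∀ η η' : H₂, ∃ c : ℂ, ∀ ξ ξ', ⟪T ξ' η', z (T ξ η)⟫_ℂ = c * ⟪ξ', ξ⟫_ℂ) → ∃ y ∈ M₂, Amp2 T y z

end Pool.Agent.Q191.WT
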