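import Mathlib
import Pool.Agent.Q191.WT.Stmts

set_option autoImplicit false
open scoped InnerProductSpace
open Filter Topology Pool.Agent.Y671.WD

namespace Pool.Agent.Q191.WT

lemma ext_total {H₁ H₂ H : Type} [NormedAddCommGroup H₁] [InnerProductSpace ℂ H₁]
    [CompleteSpace H₁] [NormedAddCommGroup H₂] [InnerProductSpace ℂ H₂] [CompleteSpace H₂]
    [NormedAddCommGroup H] [InnerProductSpace ℂ H] [CompleteSpace H] {T : H₁ → H₂ → H}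
    (hT : IsTP T) {A B : H →L[ℂ] H}
    (h : ∀ ξ η ξ' η', ⟪T ξ' η', A (T ξ η)⟫_ℂ = ⟪T ξ' η', B (T ξ η)⟫_ℂ) : A = B := by
  have h1 : ∀ ξ η, (A - B) (T ξ η) = 0 := by
    intro ξ η
    refine hT.total _ fun a b => ?_
    have : (A - B) (T ξ η) = A (T ξ η) - B (T ξ η) := rfl
    rw [this, inner_sub_right, h, sub_self]
  have h2 : ContinuousLinearMap.adjoint (A - B) = 0 := by
    ext ζ
    refine hT.total _ fun a b => ?_
    rw [ContinuousLinearMap.adjoint_inner_right, h1, inner_zero_left]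
  have h3 : A - B = 0 := by
    rw [← ContinuousLinearMap.adjoint_adjoint (A - B), h2, map_zero]
  exact sub_eq_zero.1 h3

/-- a central averaging: an element commuting with `N` is only averaged to itself -/
lemma scalar_of_comm {H : Type} [NormedAddCommGroup H] [InnerProductSpace ℂ H] [CompleteSpace H]
    {N M : VonNeumannAlgebra H} (h : WRDP N M) {z : H →L[ℂ] H} (hz : z ∈ M)
    (hzN : ∀ y ∈ N, z * y = y * z) : ∃ c : ℂ, z = c • (1 : H →L[ℂ] H) := by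
  obtain ⟨c, hc⟩ := h z hz
  have h1 : convexHull ℝ {T : H →L[ℂ] H | ∃ u ∈ unitary (H →L[ℂ] H), u ∈ N ∧ T = u * z * star u} ⊆
      {z} := by
    apply convexHull_min
    · rintro _ ⟨u, hu, huN, rfl⟩
      rw [Set.mem_singleton_iff, ← hzN u huN, mul_assoc, Unitary.mul_star_self_of_mem hu, mul_one]
    · exact convex_singleton z
  refine ⟨c, ?_⟩
  have h2 : ∀ ξ η : H, ⟪η, (z - c • (1 : H →L[ℂ] H)) ξ⟫_ℂ = 0 := by
    intro ξ η
    by_contra hne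
    obtain ⟨y, hy, hy'⟩ := hc 1 (fun _ => ξ) (fun _ => η) _ (norm_pos_iff.2 hne)
    have h3 := h1 hy
    rw [Set.mem_singleton_iff] at h3
    rw [h3] at hy'
    exact lt_irrefl _ (hy' 0)
  have h3 : z - c • (1 : H →L[ℂ] H) = 0 := by
    ext ξ
    have := h2 ξ ((z - c • (1 : H →L[ℂ] H)) ξ)
    exact inner_self_eq_zero.1 this
  exact sub_eq_zero.1 h3

theorem assemble (hAvComp : TaskAvComp) (hAvProp : TaskAvProp) (hSvProp : TaskSvProp)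
    (hSvComp : TaskSvComp) (hLim : TaskLim) (hOne : TaskOne) (hBack : TaskBack)
    (hCommon : TaskCommon) (hAmp : TaskAmp) (hFlip : TaskFlip) (hSlice : TaskSlice)
    (hSliceMem : TaskSliceMem) (hAvTensor : TaskAvTensor) (hSvTensor : TaskSvTensor)
    (hScal : TaskScalarSlices)
    (H₁ H₂ H : Type) [NormedAddCommGroup H₁] [InnerProductSpace ℂ H₁]
    [CompleteSpace H₁] [NormedAddCommGroup H₂] [InnerProductSpace ℂ H₂] [CompleteSpace H₂]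
    [NormedAddCommGroup H] [InnerProductSpace ℂ H] [CompleteSpace H] [Nontrivial H₁]
    (T : H₁ → H₂ → H) (hT : IsTP T) (N₁ M₁ : VonNeumannAlgebra H₁) (N₂ M₂ : VonNeumannAlgebra H₂)
    (N M : VonNeumannAlgebra H) (hN : IsTensor T N₁ N₂ N) (hM : IsTensor T M₁ M₂ M)
    (h₁ : IrredFactors N₁ M₁) (h₂ : IrredFactors N₂ M₂) (hw₁ : WRDP N₁ M₁) (hw₂ : WRDP N₂ M₂) :
    IrredFactors N M ∧ WRDP N M := by
  have pAv := hAvProp
  have pSv := hSvProp pAv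
  have pLim := hLim (hSvProp) pAv
  have hNM : ∀ a ∈ N, a ∈ M := by
    intro a ha
    have h1 := (hN a).1 ha
    refine (hM a).2 ⟨fun r hr R hR => h1.1 r ?_ R hR, fun r hr R hR => h1.2 r ?_ R hR⟩
    · rw [VonNeumannAlgebra.mem_commutant_iff] at hr ⊢
      exact fun b hb => hr b (h₁.1 b hb)
    · rw [VonNeumannAlgebra.mem_commutant_iff] at hr ⊢
      exact fun b hb => hr b (h₂.1 b hb)
  have hW : WRDP N M := by
    obtain ⟨Θ₁, hΘ₁, hc₁⟩ := hCommon hOne hSvComp hSvProp hLim hAvProp hAvComp H₁ N₁ M₁ h₁.1 hw₁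
    obtain ⟨Ψ₁, hΨ₁, hs₁⟩ := hSvTensor hAmp hAvTensor hLim hSvProp hAvProp H₁ H₂ H T hT N₁ N₂ N hN
      Θ₁ hΘ₁
    intro x hx
    have hzM : Ψ₁ x ∈ M := (pSv H N Ψ₁ hΨ₁).2.2.2 M hNM x hx
    obtain ⟨y, hy, hyz⟩ := hScal hAmp hFlip hSlice hSliceMem H₁ H₂ H T hT M₁ M₂ M hM (Ψ₁ x) hzM (by
      intro η η'
      obtain ⟨E, hE⟩ := hSlice H₁ H₂ H T hT x η η'
      have hEM : E ∈ M₁ := hSliceMem hAmp H₁ H₂ H T hT M₁ M₂ M hM x hx η η' E hE
      obtain ⟨c, hc⟩ := hc₁ E hEM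
      refine ⟨c, fun ξ ξ' => ?_⟩
      rw [← hs₁ x η η' E hE ξ ξ', hc]
      change ⟪ξ', c • ξ⟫_ℂ = _
      rw [inner_smul_right])
    obtain ⟨c, hc⟩ := hw₂ y hy
    obtain ⟨Θ₂, hΘ₂, hc₂⟩ := hOne hLim hSvProp hAvProp H₂ N₂ y c hc
    obtain ⟨hT', hflip⟩ := hFlip H₁ H₂ H T hT
    obtain ⟨Ψ₂, hΨ₂, hs₂⟩ := hSvTensor hAmp hAvTensor hLim hSvProp hAvProp H₂ H₁ H _ hT' N₂ N₁ N
      (hflip N₁ N₂ N hN) Θ₂ hΘ₂
    have hfin : Ψ₂ (Ψ₁ x) = c • 1 := by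
      refine ext_total hT fun ξ η ξ' η' => ?_
      have h1 := hs₂ (Ψ₁ x) ξ ξ' (⟪ξ', ξ⟫_ℂ • y) (by
        intro η η'
        rw [hyz, hT.inner]
        change ⟪η', ⟪ξ', ξ⟫_ℂ • y η⟫_ℂ = _
        rw [inner_smul_right]) η η'
      rw [← h1, (pSv H₂ N₂ Θ₂ hΘ₂).2.1, hc₂]
      change ⟪η', ⟪ξ', ξ⟫_ℂ • (c • η)⟫_ℂ = ⟪T ξ' η', c • T ξ η⟫_ℂ
      rw [inner_smul_right, inner_smul_right, inner_smul_right, hT.inner]
      ring
    exact ⟨c, hBack H N x c _ (hSvComp hAvProp hAvComp H N Ψ₂ hΨ₂ Ψ₁ hΨ₁) hfin⟩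
  refine ⟨⟨hNM, fun z hz h => ?_, fun z hz h => ?_, fun z hz h => ?_⟩, hW⟩
  · exact scalar_of_comm hW hz fun y hy => h y (hNM y hy)
  · exact scalar_of_comm hW (hNM z hz) h
  · exact scalar_of_comm hW hz h

end Pool.Agent.Q191.WT
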