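import Pool.Agent.Q191.WT.Stmts

set_option autoImplicit false
open scoped InnerProductSpace
open Filter Topology Pool.Agent.Y671.WD

namespace Pool.Agent.Q191.WT

theorem AvComp.conj_mem {H : Type} [NormedAddCommGroup H] [InnerProductSpace ℂ H]
    [CompleteSpace H] (N : VonNeumannAlgebra H) (u : H →L[ℂ] H) (hu : u ∈ unitary (H →L[ℂ] H))
    (huN : u ∈ N) : ∀ Ψ ∈ Av N, (fun x => u * Ψ x * star u) ∈ Av N := by
  intro Ψ hΨ
  have hconv : Convex ℝ {Ψ : (H →L[ℂ] H) → (H →L[ℂ] H) | (fun x => u * Ψ x * star u) ∈ Av N} := by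
    intro Ψ₁ h₁ Ψ₂ h₂ a b ha hb hab
    have h := (convex_convexHull ℝ _ : Convex ℝ (Av N)) h₁ h₂ ha hb hab
    have e : (fun x => u * (a • Ψ₁ + b • Ψ₂) x * star u) =
        a • (fun x => u * Ψ₁ x * star u) + b • (fun x => u * Ψ₂ x * star u) := by
      funext x
      show u * (a • Ψ₁ x + b • Ψ₂ x) * star u = a • (u * Ψ₁ x * star u) + b • (u * Ψ₂ x * star u)
      rw [mul_add, add_mul, mul_smul_comm, mul_smul_comm, smul_mul_assoc, smul_mul_assoc]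
    show (fun x => u * (a • Ψ₁ + b • Ψ₂) x * star u) ∈ Av N
    rw [e]
    exact h
  refine convexHull_min (t := {Ψ : (H →L[ℂ] H) → (H →L[ℂ] H) | (fun x => u * Ψ x * star u) ∈ Av N}) ?_ hconv hΨ
  rintro _ ⟨v, hv, hvN, rfl⟩
  refine subset_convexHull ℝ _ ⟨u * v, mul_mem hu hv, mul_mem huN hvN, ?_⟩
  funext x
  simp only [star_mul, mul_assoc]

theorem AvComp : TaskAvComp := by
  intro H _ _ _ N Φ hΦ Ψ hΨ
  have hconv : Convex ℝ {Φ : (H →L[ℂ] H) → (H →L[ℂ] H) | (fun x => Φ (Ψ x)) ∈ Av N} := by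
    intro Φ₁ h₁ Φ₂ h₂ a b ha hb hab
    exact (convex_convexHull ℝ _ : Convex ℝ (Av N)) h₁ h₂ ha hb hab
  refine convexHull_min (t := {Φ : (H →L[ℂ] H) → (H →L[ℂ] H) | (fun x => Φ (Ψ x)) ∈ Av N}) ?_ hconv hΦ
  rintro _ ⟨u, hu, huN, rfl⟩
  exact AvComp.conj_mem N u hu huN Ψ hΨ

end Pool.Agent.Q191.WT
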