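import Pool.Agent.Q191.WT.Stmts
import Pool.Agent.Q191.WX.Hull

set_option autoImplicit false
open scoped InnerProductSpace
open Filter Topology Pool.Agent.Y671.WD

namespace Pool.Agent.Q191.WT

namespace AvPropAux

variable {H : Type} [NormedAddCommGroup H] [InnerProductSpace ℂ H] [CompleteSpace H]

theorem sc (t : ℝ) (w : H →L[ℂ] H) : t • w = (t : ℂ) • w := rfl

def P1 (Φ : (H →L[ℂ] H) → (H →L[ℂ] H)) : Prop := ∀ x, ‖Φ x‖ ≤ ‖x‖
def P2 (Φ : (H →L[ℂ] H) → (H →L[ℂ] H)) : Prop := ∀ (c : ℂ) x, Φ (c • x) = c • Φ x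
def P3 (Φ : (H →L[ℂ] H) → (H →L[ℂ] H)) : Prop := ∀ c : ℂ, Φ (c • 1) = c • 1
def P4 (N : VonNeumannAlgebra H) (Φ : (H →L[ℂ] H) → (H →L[ℂ] H)) : Prop :=
  ∀ r, (∀ u ∈ N, r * u = u * r) → ∀ x, r * x = x * r → r * Φ x = Φ x * r
def P5 (Φ : (H →L[ℂ] H) → (H →L[ℂ] H)) : Prop :=
  ∀ ξ η : H, ∃ (m : ℕ) (a : Fin m → ℂ) (α β : Fin m → H),
    ∀ x : H →L[ℂ] H, ⟪η, Φ x ξ⟫_ℂ = ∑ k, a k * ⟪β k, x (α k)⟫_ℂ

theorem gen {N : VonNeumannAlgebra H} {u : H →L[ℂ] H} (hu : u ∈ unitary (H →L[ℂ] H)) (huN : u ∈ N) :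
    P1 (fun x => u * x * star u) ∧ P2 (fun x => u * x * star u) ∧ P3 (fun x => u * x * star u) ∧
    P4 N (fun x => u * x * star u) ∧ P5 (fun x => u * x * star u) := by
  refine ⟨fun x => Pool.Agent.Q191.WX.norm_conj_le hu x, ?_, ?_, ?_, ?_⟩
  · intro c x
    show u * (c • x) * star u = c • (u * x * star u)
    rw [mul_smul_comm, smul_mul_assoc]
  · intro c
    show u * (c • 1) * star u = c • 1
    rw [mul_smul_comm, smul_mul_assoc, mul_one, Unitary.mul_star_self_of_mem hu]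
  · intro r hr x hx
    show r * (u * x * star u) = u * x * star u * r
    have h1 := hr u huN
    have h2 := hr (star u) (star_mem huN)
    calc r * (u * x * star u) = (r * u) * x * star u := by simp only [mul_assoc]
      _ = u * (r * x) * star u := by rw [h1]; simp only [mul_assoc]
      _ = u * x * (r * star u) := by rw [hx]; simp only [mul_assoc]
      _ = u * x * star u * r := by rw [h2]; simp only [mul_assoc]
  · intro ξ η
    refine ⟨1, fun _ => 1, fun _ => star u ξ, fun _ => star u η, fun x => ?_⟩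
    simp only [Finset.univ_unique, Finset.sum_const, Finset.card_singleton, one_smul, one_mul]
    show ⟪η, u (x (star u ξ))⟫_ℂ = ⟪star u η, x (star u ξ)⟫_ℂ
    rw [ContinuousLinearMap.star_eq_adjoint, ContinuousLinearMap.adjoint_inner_left]

theorem conv {N : VonNeumannAlgebra H} {Φ Ψ : (H →L[ℂ] H) → (H →L[ℂ] H)} {a b : ℝ} (ha : 0 ≤ a)
    (hb : 0 ≤ b) (hab : a + b = 1)
    (h : P1 Φ ∧ P2 Φ ∧ P3 Φ ∧ P4 N Φ ∧ P5 Φ) (h' : P1 Ψ ∧ P2 Ψ ∧ P3 Ψ ∧ P4 N Ψ ∧ P5 Ψ) :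
    P1 (a • Φ + b • Ψ) ∧ P2 (a • Φ + b • Ψ) ∧ P3 (a • Φ + b • Ψ) ∧ P4 N (a • Φ + b • Ψ) ∧
      P5 (a • Φ + b • Ψ) := by
  obtain ⟨h1, h2, h3, h4, h5⟩ := h
  obtain ⟨h1', h2', h3', h4', h5'⟩ := h'
  have e : ∀ x, (a • Φ + b • Ψ) x = (a : ℂ) • Φ x + (b : ℂ) • Ψ x := fun x => rfl
  refine ⟨?_, ?_, ?_, ?_, ?_⟩
  · intro x
    rw [e]
    refine (norm_add_le _ _).trans ?_
    rw [norm_smul, norm_smul, Complex.norm_real, Complex.norm_real, Real.norm_eq_abs,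
      Real.norm_eq_abs, abs_of_nonneg ha, abs_of_nonneg hb]
    have := mul_le_mul_of_nonneg_left (h1 x) ha
    have := mul_le_mul_of_nonneg_left (h1' x) hb
    have : a * ‖x‖ + b * ‖x‖ = ‖x‖ := by rw [← add_mul, hab, one_mul]
    linarith
  · intro c x
    rw [e, e, h2, h2', smul_add, smul_comm c, smul_comm c]
  · intro c
    rw [e, h3, h3', ← add_smul]
    have : (a : ℂ) + (b : ℂ) = 1 := by exact_mod_cast hab
    rw [this, one_smul]
  · intro r hr x hx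
    rw [e, mul_add, add_mul, mul_smul_comm, mul_smul_comm, smul_mul_assoc, smul_mul_assoc,
      h4 r hr x hx, h4' r hr x hx]
  · intro ξ η
    obtain ⟨m, c, α, β, hs⟩ := h5 ξ η
    obtain ⟨m', c', α', β', hs'⟩ := h5' ξ η
    refine ⟨m + m', Fin.append (fun k => (a : ℂ) * c k) (fun k => (b : ℂ) * c' k),
      Fin.append α α', Fin.append β β', fun x => ?_⟩
    rw [e, Fin.sum_univ_add]
    simp only [Fin.append_left, Fin.append_right]
    have e1 : ((a : ℂ) • Φ x + (b : ℂ) • Ψ x) ξ = (a : ℂ) • Φ x ξ + (b : ℂ) • Ψ x ξ := rfl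
    rw [e1, inner_add_right, inner_smul_right, inner_smul_right, hs, hs', Finset.mul_sum,
      Finset.mul_sum]
    simp only [mul_assoc]

end AvPropAux

open AvPropAux in
theorem AvProp : TaskAvProp := by
  intro H _ _ _ N Φ hΦ
  have h : Av N ⊆ {Φ | P1 Φ ∧ P2 Φ ∧ P3 Φ ∧ P4 N Φ ∧ P5 Φ} := by
    apply convexHull_min
    · rintro _ ⟨u, hu, huN, rfl⟩
      exact gen hu huN
    · intro Φ hΦ Ψ hΨ a b ha hb hab
      exact conv ha hb hab hΦ hΨ
  exact h hΦ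

end Pool.Agent.Q191.WT
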