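import Pool.Agent.Q191.WT.Stmts

set_option autoImplicit false
open scoped InnerProductSpace
open Filter Topology Pool.Agent.Y671.WD

namespace Pool.Agent.Q191.WT

namespace AvTensor187

section

variable {H₁ H₂ H : Type} [NormedAddCommGroup H₁] [InnerProductSpace ℂ H₁] [CompleteSpace H₁]
  [NormedAddCommGroup H₂] [InnerProductSpace ℂ H₂] [CompleteSpace H₂]
  [NormedAddCommGroup H] [InnerProductSpace ℂ H] [CompleteSpace H]

lemma op_ext {T : H₁ → H₂ → H} (hT : IsTP T) {A B : H →L[ℂ] H}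
    (h : ∀ ξ η, A (T ξ η) = B (T ξ η)) : A = B := by
  have h1 : ∀ ζ : H, star (A - B) ζ = 0 := by
    intro ζ
    refine hT.total _ fun a b => ?_
    rw [ContinuousLinearMap.star_eq_adjoint, ContinuousLinearMap.adjoint_inner_right,
      ContinuousLinearMap.sub_apply, h, sub_self, inner_zero_left]
  have h2 : star (A - B) = 0 := ContinuousLinearMap.ext h1
  have h3 : A - B = 0 := star_eq_zero.mp h2
  exact sub_eq_zero.mp h3

lemma inner_conj (u E : H →L[ℂ] H) (ξ ξ' : H) :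
    ⟪ξ', (u * E * star u) ξ⟫_ℂ = ⟪star u ξ', E (star u ξ)⟫_ℂ := by
  rw [ContinuousLinearMap.star_eq_adjoint, ContinuousLinearMap.adjoint_inner_left]
  rfl

end

end AvTensor187

open AvTensor187 in
theorem AvTensor : TaskAvTensor := by
  intro hAmp H₁ H₂ H _ _ _ _ _ _ _ _ _ T hT N₁ N₂ N hN Φ hΦ
  let S : Set ((H₁ →L[ℂ] H₁) → (H₁ →L[ℂ] H₁)) := {Φ | ∃ Ψ ∈ Av N,
    ∀ (x : H →L[ℂ] H) (η η' : H₂) (E : H₁ →L[ℂ] H₁),
      (∀ ξ ξ', ⟪ξ', E ξ⟫_ℂ = ⟪T ξ' η', x (T ξ η)⟫_ℂ) →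
      ∀ ξ ξ', ⟪ξ', Φ E ξ⟫_ℂ = ⟪T ξ' η', Ψ x (T ξ η)⟫_ℂ}
  suffices h : Av N₁ ⊆ S from h hΦ
  refine convexHull_min ?_ ?_
  · rintro _ ⟨u, hu, huN, rfl⟩
    obtain ⟨R, hR, hR1, hR2⟩ := hAmp H₁ H₂ H T hT u hu
    have hRN : R ∈ N := by
      refine (hN R).mpr ⟨fun r hr R' hR' => ?_, fun r hr R' hR' => ?_⟩
      · refine op_ext hT fun ξ η => ?_
        have h1 : u * r = r * u := (VonNeumannAlgebra.mem_commutant_iff.mp hr) u huN
        have h2 : u (r ξ) = r (u ξ) := by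
          have := congrArg (fun A : H₁ →L[ℂ] H₁ => A ξ) h1
          exact this
        show R' (R (T ξ η)) = R (R' (T ξ η))
        rw [hR1, hR', hR', hR1, h2]
      · refine op_ext hT fun ξ η => ?_
        show R' (R (T ξ η)) = R (R' (T ξ η))
        rw [hR1, hR', hR', hR1]
    refine ⟨fun x => R * x * star R, subset_convexHull ℝ _ ⟨R, hR, hRN, rfl⟩, ?_⟩
    intro x η η' E hE ξ ξ'
    simp only
    rw [inner_conj, inner_conj, hE, hR2, hR2]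
  · rintro Φ₁ ⟨Ψ₁, hΨ₁, h₁⟩ Φ₂ ⟨Ψ₂, hΨ₂, h₂⟩ a b ha hb hab
    refine ⟨a • Ψ₁ + b • Ψ₂, convex_convexHull ℝ _ hΨ₁ hΨ₂ ha hb hab, ?_⟩
    intro x η η' E hE ξ ξ'
    have e1 := h₁ x η η' E hE ξ ξ'
    have e2 := h₂ x η η' E hE ξ ξ'
    have c1 : ((a • Φ₁ + b • Φ₂) E) ξ = (a : ℂ) • (Φ₁ E ξ) + (b : ℂ) • (Φ₂ E ξ) := rfl
    have c2 : ((a • Ψ₁ + b • Ψ₂) x) (T ξ η) =
        (a : ℂ) • (Ψ₁ x (T ξ η)) + (b : ℂ) • (Ψ₂ x (T ξ η)) := rfl
    rw [c1, c2, inner_add_right, inner_add_right, inner_smul_right, inner_smul_right,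
      inner_smul_right, inner_smul_right, e1, e2]

end Pool.Agent.Q191.WT
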