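import Pool.Agent.Q191.WT.TaskBack

set_option autoImplicit false

namespace Pool.Agent.Q191.WT

theorem Back : TaskBack := Pool.Agent.Q191.WT.TaskBack.main

end Pool.Agent.Q191.WT
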