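import Pool.Agent.Q191.WT.Stmts

set_option autoImplicit false
open scoped InnerProductSpace

namespace Pool.Agent.Q191.WT

theorem Flip : TaskFlip := by
  intro H₁ H₂ H _ _ _ _ _ _ _ _ _ T hT
  refine ⟨⟨fun a a' b => hT.add_right b a a', fun a b b' => hT.add_left b b' a,
    fun c a b => hT.smul_right c b a, fun c a b => hT.smul_left c b a,
    fun a b a' b' => by rw [hT.inner, mul_comm], fun ζ h => hT.total ζ fun a b => h b a⟩, ?_⟩
  intro M₁ M₂ M h x
  constructor
  · intro hx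
    obtain ⟨h1, h2⟩ := (h x).mp hx
    exact ⟨fun r hr R hR => h2 r hr R fun ξ η => hR η ξ,
      fun r hr R hR => h1 r hr R fun ξ η => hR η ξ⟩
  · rintro ⟨h1, h2⟩
    exact (h x).mpr ⟨fun r hr R hR => h2 r hr R fun ξ η => hR η ξ,
      fun r hr R hR => h1 r hr R fun ξ η => hR η ξ⟩

end Pool.Agent.Q191.WT
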