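import Mathlib
import Pool.Agent.Q191.WT.Stmts
import Pool.Agent.Q191.WX.Union

set_option autoImplicit false
open scoped InnerProductSpace
open Filter Topology Pool.Agent.Y671.WD

namespace Pool.Agent.Q191.WT

theorem L227.lim_aux {ι : Type} (U : Ultrafilter ι) {f : ι → ℂ} {C : ℝ} (h : ∀ k, ‖f k‖ ≤ C) :
    Tendsto f U (𝓝 (WX.cm (WX.ul U) f)) := by
  have h1 := WX.ul_spec U (WX.bd_re h)
  have h2 := WX.ul_spec U (WX.bd_im h)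
  have h3 := ((Complex.continuous_ofReal.tendsto _).comp h1).add
    (((Complex.continuous_ofReal.tendsto _).comp h2).mul_const Complex.I)
  unfold WX.cm
  refine h3.congr fun k => ?_
  simp only [Function.comp_apply]
  exact Complex.re_add_im (f k)

theorem Lim : TaskLim := by
  intro hSv hAv H _ _ _ N ι U Θ hΘ
  have hb : ∀ x, ∀ j, ‖Θ j x‖ ≤ ‖x‖ := fun x j => (hSv hAv H N (Θ j) (hΘ j)).1 x
  have h1 : ∀ x, ∃ Z : H →L[ℂ] H, ∀ ξ η : H, ⟪Z ξ, η⟫_ℂ = WX.cm (WX.ul U) fun k => ⟪Θ k x ξ, η⟫_ℂ :=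
    fun x => WX.exists_avg (WX.ul_mean U) (fun j => Θ j x) (hb x)
  choose Z hZ using h1
  have hT : ∀ x (ξ η : H), Tendsto (fun j => ⟪η, Θ j x ξ⟫_ℂ) U (𝓝 ⟪η, Z x ξ⟫_ℂ) := by
    intro x ξ η
    have hbd : ∀ k, ‖⟪Θ k x ξ, η⟫_ℂ‖ ≤ ‖x‖ * ‖ξ‖ * ‖η‖ := by
      intro k
      refine (norm_inner_le_norm _ _).trans ?_
      refine mul_le_mul_of_nonneg_right ?_ (norm_nonneg _)
      exact ((Θ k x).le_opNorm ξ).trans (mul_le_mul_of_nonneg_right (hb x k) (norm_nonneg _))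
    have h2 := L227.lim_aux U hbd
    rw [← hZ x ξ η] at h2
    have h3 := (Complex.continuous_conj.tendsto _).comp h2
    have h4 : (starRingEnd ℂ) ⟪Z x ξ, η⟫_ℂ = ⟪η, Z x ξ⟫_ℂ := inner_conj_symm _ _
    rw [h4] at h3
    refine h3.congr fun k => ?_
    exact inner_conj_symm _ _
  refine ⟨Z, ?_, hT⟩
  intro n x ξ η ε hε
  have h5 : ∀ i : Fin n, ∀ᶠ j in (U : Filter ι),
      ‖⟪η i, Θ j (x i) (ξ i)⟫_ℂ - ⟪η i, Z (x i) (ξ i)⟫_ℂ‖ < ε / 2 := by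
    intro i
    have h6 := (Metric.tendsto_nhds.1 (hT (x i) (ξ i) (η i))) (ε / 2) (by positivity)
    refine h6.mono fun j hj => ?_
    rwa [dist_eq_norm] at hj
  obtain ⟨j, hj⟩ := (Filter.eventually_all.2 h5).exists
  obtain ⟨Φ, hΦ, hΦ'⟩ := hΘ j n x ξ η (ε / 2) (by positivity)
  refine ⟨Φ, hΦ, fun i => ?_⟩
  have e1 : ⟪η i, (Φ (x i) - Z (x i)) (ξ i)⟫_ℂ = ⟪η i, (Φ (x i) - Θ j (x i)) (ξ i)⟫_ℂ +
      (⟪η i, Θ j (x i) (ξ i)⟫_ℂ - ⟪η i, Z (x i) (ξ i)⟫_ℂ) := by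
    rw [← inner_sub_right, ← inner_add_right]
    congr 1
    change Φ (x i) (ξ i) - Z (x i) (ξ i) = (Φ (x i) (ξ i) - Θ j (x i) (ξ i)) +
      (Θ j (x i) (ξ i) - Z (x i) (ξ i))
    abel
  rw [e1]
  refine (norm_add_le _ _).trans_lt ?_
  linarith [hj i, hΦ' i]

end Pool.Agent.Q191.WT
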