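import Pool.Agent.Q191.WT.Stmts

/-! `WT.One` (helper230). -/

set_option autoImplicit false
open scoped InnerProductSpace
open Filter Topology Pool.Agent.Y671.WD

namespace Pool.Agent.Q191.WT

namespace OneAux

theorem av_sub_sv {H : Type} [NormedAddCommGroup H] [InnerProductSpace ℂ H] [CompleteSpace H]
    (N : VonNeumannAlgebra H) {Φ : (H →L[ℂ] H) → (H →L[ℂ] H)} (h : Φ ∈ Av N) : Φ ∈ Sv N := by
  intro n x ξ η ε hε
  exact ⟨Φ, h, fun i => by simpa using hε⟩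

theorem conv {H : Type} [NormedAddCommGroup H] [InnerProductSpace ℂ H] [CompleteSpace H]
    (N : VonNeumannAlgebra H) (x : H →L[ℂ] H) :
    ∀ y ∈ convexHull ℝ {T : H →L[ℂ] H | ∃ u ∈ unitary (H →L[ℂ] H), u ∈ N ∧ T = u * x * star u},
      ∃ Φ ∈ Av N, Φ x = y := by
  intro y hy
  have hsub : convexHull ℝ {T : H →L[ℂ] H | ∃ u ∈ unitary (H →L[ℂ] H), u ∈ N ∧ T = u * x * star u} ⊆
      {y | ∃ Φ ∈ Av N, Φ x = y} := by
    apply convexHull_min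
    · rintro T ⟨u, hu, huN, rfl⟩
      exact ⟨fun z => u * z * star u, subset_convexHull ℝ _ ⟨u, hu, huN, rfl⟩, rfl⟩
    · rintro y₁ ⟨Φ₁, h₁, rfl⟩ y₂ ⟨Φ₂, h₂, rfl⟩ a b ha hb hab
      exact ⟨a • Φ₁ + b • Φ₂, convex_convexHull ℝ _ h₁ h₂ ha hb hab, rfl⟩
  exact hsub hy

end OneAux

theorem One : TaskOne := by
  classical
  intro hLim hSv hAv H _ _ _ N x c hx
  have hch : ∀ j : Finset (H × H) × ℕ, ∃ Φ ∈ Av N, ∀ p ∈ j.1,
      ‖⟪p.2, (Φ x - c • (1 : H →L[ℂ] H)) p.1⟫_ℂ‖ < 1 / ((j.2 : ℝ) + 1) := by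
    intro j
    obtain ⟨y, hy, hy2⟩ := hx j.1.card (fun i => (j.1.equivFin.symm i).1.1)
      (fun i => (j.1.equivFin.symm i).1.2) (1 / ((j.2 : ℝ) + 1)) (by positivity)
    obtain ⟨Φ, hΦ, rfl⟩ := OneAux.conv N x y hy
    refine ⟨Φ, hΦ, fun p hp => ?_⟩
    have := hy2 (j.1.equivFin ⟨p, hp⟩)
    simpa only [Equiv.symm_apply_apply] using this
  choose Φ hΦ hΦ2 using hch
  obtain ⟨Θ, hΘ, hlim⟩ := hLim hSv hAv H N (Finset (H × H) × ℕ) (Ultrafilter.of atTop) Φ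
    (fun j => OneAux.av_sub_sv N (hΦ j))
  refine ⟨Θ, hΘ, ?_⟩
  apply ContinuousLinearMap.ext
  intro ξ
  apply ext_inner_left ℂ
  intro η
  have h1 := hlim x ξ η
  have h3 : Tendsto (fun j => ⟪η, Φ j x ξ⟫_ℂ) atTop (𝓝 ⟪η, (c • (1 : H →L[ℂ] H)) ξ⟫_ℂ) := by
    rw [Metric.tendsto_nhds]
    intro ε hε
    obtain ⟨n0, hn0⟩ := exists_nat_one_div_lt hε
    filter_upwards [eventually_ge_atTop (({(ξ, η)} : Finset (H × H)), n0)] with j hj
    have hp : (ξ, η) ∈ j.1 := hj.1 (Finset.mem_singleton_self _)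
    have h4 := hΦ2 j (ξ, η) hp
    rw [dist_eq_norm, ← inner_sub_right, ← ContinuousLinearMap.sub_apply]
    refine lt_of_lt_of_le h4 (le_trans ?_ hn0.le)
    apply one_div_le_one_div_of_le (by positivity)
    have : (n0 : ℝ) ≤ (j.2 : ℝ) := by exact_mod_cast hj.2
    linarith
  have h2 := h3.mono_left (Ultrafilter.of_le (atTop : Filter (Finset (H × H) × ℕ)))
  exact tendsto_nhds_unique h1 h2

end Pool.Agent.Q191.WT
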