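import Pool.Agent.Q191.WT.Stmts

/-! Proof of `TaskScalarSlices` (blueprint of helper191), by helper242. -/

set_option autoImplicit false
open scoped InnerProductSpace
open Filter Topology Pool.Agent.Y671.WD

namespace Pool.Agent.Q191.WT

theorem ScalarSlices : TaskScalarSlices := by
  intro hAmp hFlip hSlice hMem H₁ H₂ H _ _ _ _ _ _ _ _ _ _ T hT M₁ M₂ M hM z hz hsc
  obtain ⟨hT', hflip⟩ := hFlip H₁ H₂ H T hT
  have hM' := hflip M₁ M₂ M hM
  obtain ⟨v, hv⟩ := exists_ne (0 : H₁)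
  -- a unit vector
  obtain ⟨e, he⟩ : ∃ e : H₁, ⟪e, e⟫_ℂ = 1 := by
    refine ⟨(((‖v‖ : ℝ) : ℂ)⁻¹) • v, ?_⟩
    have hv' : ((‖v‖ : ℝ) : ℂ) ≠ 0 := by
      simpa using hv
    rw [inner_smul_left, inner_smul_right, inner_self_eq_norm_sq_to_K]
    simp only [map_inv₀, Complex.conj_ofReal]
    field_simp
    rfl
  obtain ⟨E, hE⟩ := hSlice H₂ H₁ H (fun b a => T a b) hT' z e e
  have hEm : E ∈ M₂ := hMem hAmp H₂ H₁ H (fun b a => T a b) hT' M₂ M₁ M hM' z hz e e E hE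
  refine ⟨E, hEm, ?_⟩
  intro ξ η
  have h0 : z (T ξ η) - T ξ (E η) = 0 := by
    apply hT.total
    intro a b
    obtain ⟨c, hc⟩ := hsc η b
    have h1 := hc ξ a
    have h2 := hc e e
    have h3 : ⟪b, E η⟫_ℂ = ⟪T e b, z (T e η)⟫_ℂ := hE η b
    rw [inner_sub_right, h1, hT.inner, h3]
    rw [h2, he]
    ring
  exact sub_eq_zero.mp h0

end Pool.Agent.Q191.WT
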