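import Pool.Agent.Q191.WT.Stmts

/-! The slice maps. -/

set_option autoImplicit false
open scoped InnerProductSpace
open Filter Topology Pool.Agent.Y671.WD

namespace Pool.Agent.Q191.WT

theorem Slice.norm_T {H₁ H₂ H : Type} [NormedAddCommGroup H₁] [InnerProductSpace ℂ H₁]
    [NormedAddCommGroup H₂] [InnerProductSpace ℂ H₂]
    [NormedAddCommGroup H] [InnerProductSpace ℂ H] (T : H₁ → H₂ → H)
    (hT : ∀ a b a' b', ⟪T a b, T a' b'⟫_ℂ = ⟪a, a'⟫_ℂ * ⟪b, b'⟫_ℂ) (ξ : H₁) (η : H₂) :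
    ‖T ξ η‖ = ‖η‖ * ‖ξ‖ := by
  have h := hT ξ η ξ η
  rw [inner_self_eq_norm_sq_to_K, inner_self_eq_norm_sq_to_K, inner_self_eq_norm_sq_to_K] at h
  have h' : ‖T ξ η‖ ^ 2 = (‖η‖ * ‖ξ‖) ^ 2 := by
    rw [mul_pow, mul_comm]
    exact_mod_cast h
  exact (sq_eq_sq₀ (norm_nonneg _) (by positivity)).mp h'

theorem Slice : TaskSlice := by
  intro H₁ H₂ H _ _ _ _ _ _ _ _ _ T hT x η η'
  have key : ∀ η : H₂, ∃ V : H₁ →L[ℂ] H, ∀ ξ, V ξ = T ξ η := by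
    intro η
    refine ⟨LinearMap.mkContinuous
      { toFun := fun ξ => T ξ η
        map_add' := fun a a' => hT.add_left a a' η
        map_smul' := fun c a => hT.smul_left c a η } ‖η‖ ?_, fun ξ => rfl⟩
    intro ξ
    exact (Slice.norm_T T hT.inner ξ η).le
  obtain ⟨V, hV⟩ := key η
  obtain ⟨V', hV'⟩ := key η'
  refine ⟨(ContinuousLinearMap.adjoint V') ∘L x ∘L V, fun ξ ξ' => ?_⟩
  rw [← hV, ← hV', ← ContinuousLinearMap.adjoint_inner_right]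
  rfl

end Pool.Agent.Q191.WT
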