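import Pool.Agent.Q191.WT.Stmts
import Pool.Agent.Y671.WD.Trace

set_option autoImplicit false
open scoped InnerProductSpace
open Filter Topology Pool.Agent.Y671.WD

namespace Pool.Agent.Q191.WT

theorem SliceMem : TaskSliceMem := by
  intro hAmp H₁ H₂ H _ _ _ _ _ _ _ _ _ T hT M₁ M₂ M hM x hx η η' E hE
  have key : ∀ u ∈ unitary (H₁ →L[ℂ] H₁), u ∈ M₁.commutant → E * u = u * E := by
    intro u hu huM
    obtain ⟨R, hR, hA, hA'⟩ := hAmp H₁ H₂ H T hT u hu
    have hc : R * x = x * R := ((hM x).1 hx).1 u huM R hA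
    refine ContinuousLinearMap.ext (fun ξ => ?_)
    refine ext_inner_left ℂ (fun ξ' => ?_)
    have e1 : (E * u) ξ = E (u ξ) := rfl
    have e2 : (u * E) ξ = u (E ξ) := rfl
    rw [e1, e2, hE]
    have e3 : x (T (u ξ) η) = R (x (T ξ η)) := by
      rw [← hA ξ η]
      change (x * R) (T ξ η) = (R * x) (T ξ η)
      rw [hc]
    have e4 : ⟪T ξ' η', R (x (T ξ η))⟫_ℂ = ⟪(star R) (T ξ' η'), x (T ξ η)⟫_ℂ := by
      rw [ContinuousLinearMap.star_eq_adjoint, ContinuousLinearMap.adjoint_inner_left]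
    have e5 : ⟪ξ', u (E ξ)⟫_ℂ = ⟪(star u) ξ', E ξ⟫_ℂ := by
      rw [ContinuousLinearMap.star_eq_adjoint, ContinuousLinearMap.adjoint_inner_left]
    rw [e3, e4, e5, hE, hA' ξ' η']
  have h2 := comm_of_unitary (Q := M₁.commutant) E key
  rw [← M₁.commutant_commutant, VonNeumannAlgebra.mem_commutant_iff]
  intro g hg
  exact (h2 g hg).symm

end Pool.Agent.Q191.WT
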