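import Pool.Agent.Q191.WT.Stmts

set_option autoImplicit false
open scoped InnerProductSpace
open Filter Topology Pool.Agent.Y671.WD

namespace Pool.Agent.Q191.WT

theorem SvComp : TaskSvComp := by
  intro hP hC H _ _ _ N Θ hΘ Θ' hΘ' n x ξ η ε hε
  obtain ⟨Φ1, hΦ1, h1⟩ := hΘ n (fun i => Θ' (x i)) ξ η (ε / 2) (by positivity)
  have hlast := fun i => (hP H N Φ1 hΦ1).2.2.2.2 (ξ i) (η i)
  choose m a α β hab using hlast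
  obtain ⟨S, hS⟩ : ∃ S : ℝ, S = ∑ i, ∑ k, ‖a i k‖ := ⟨_, rfl⟩
  have hS0 : 0 ≤ S := by
    rw [hS]
    exact Finset.sum_nonneg fun i _ => Finset.sum_nonneg fun k _ => norm_nonneg _
  have hSi : ∀ i, ∑ k, ‖a i k‖ ≤ S := by
    intro i
    rw [hS]
    exact Finset.single_le_sum (f := fun i => ∑ k, ‖a i k‖)
      (fun i _ => Finset.sum_nonneg fun k _ => norm_nonneg _) (Finset.mem_univ i)
  have e := Fintype.equivFin (Σ i : Fin n, Fin (m i))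
  obtain ⟨Φ2, hΦ2, h2⟩ := hΘ' (Fintype.card (Σ i : Fin n, Fin (m i)))
    (fun j => x (e.symm j).1) (fun j => α (e.symm j).1 (e.symm j).2)
    (fun j => β (e.symm j).1 (e.symm j).2) (ε / 2 / (1 + S)) (by positivity)
  have h2' : ∀ i k, ‖⟪β i k, (Φ2 (x i) - Θ' (x i)) (α i k)⟫_ℂ‖ < ε / 2 / (1 + S) := by
    intro i k
    have h3 : ∀ p : (Σ i : Fin n, Fin (m i)), ‖⟪β p.1 p.2, (Φ2 (x p.1) - Θ' (x p.1)) (α p.1 p.2)⟫_ℂ‖ <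
        ε / 2 / (1 + S) := by
      intro p
      obtain ⟨j, rfl⟩ := e.symm.surjective p
      exact h2 j
    exact h3 ⟨i, k⟩
  refine ⟨_, hC H N Φ1 hΦ1 Φ2 hΦ2, fun i => ?_⟩
  have e1 : ⟪η i, (Φ1 (Φ2 (x i)) - Θ (Θ' (x i))) (ξ i)⟫_ℂ =
      ∑ k, a i k * ⟪β i k, (Φ2 (x i) - Θ' (x i)) (α i k)⟫_ℂ +
        ⟪η i, (Φ1 (Θ' (x i)) - Θ (Θ' (x i))) (ξ i)⟫_ℂ := by
    have e2 : ∑ k, a i k * ⟪β i k, (Φ2 (x i) - Θ' (x i)) (α i k)⟫_ℂ =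
        ⟪η i, Φ1 (Φ2 (x i)) (ξ i)⟫_ℂ - ⟪η i, Φ1 (Θ' (x i)) (ξ i)⟫_ℂ := by
      rw [hab, hab, ← Finset.sum_sub_distrib]
      refine Finset.sum_congr rfl fun k _ => ?_
      rw [sub_apply, inner_sub_right, mul_sub]
    rw [e2]
    simp only [sub_apply, inner_sub_right]
    ring
  show ‖⟪η i, (Φ1 (Φ2 (x i)) - Θ (Θ' (x i))) (ξ i)⟫_ℂ‖ < ε
  rw [e1]
  have e3 : ‖∑ k, a i k * ⟪β i k, (Φ2 (x i) - Θ' (x i)) (α i k)⟫_ℂ‖ ≤ ε / 2 := by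
    calc _ ≤ ∑ k, ‖a i k * ⟪β i k, (Φ2 (x i) - Θ' (x i)) (α i k)⟫_ℂ‖ := norm_sum_le _ _
      _ ≤ ∑ k, ‖a i k‖ * (ε / 2 / (1 + S)) := by
        refine Finset.sum_le_sum fun k _ => ?_
        rw [norm_mul]
        exact mul_le_mul_of_nonneg_left (h2' i k).le (norm_nonneg _)
      _ = (∑ k, ‖a i k‖) * (ε / 2 / (1 + S)) := by rw [Finset.sum_mul]
      _ ≤ (1 + S) * (ε / 2 / (1 + S)) := by
        refine mul_le_mul_of_nonneg_right ?_ (by positivity)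
        linarith [hSi i]
      _ = ε / 2 := by field_simp
  calc _ ≤ _ := norm_add_le _ _
    _ < ε / 2 + ε / 2 := add_lt_add_of_le_of_lt e3 (h1 i)
    _ = ε := by ring

end Pool.Agent.Q191.WT
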