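import Pool.Agent.Q191.WT.Stmts

set_option autoImplicit false
open scoped InnerProductSpace
open Filter Topology Pool.Agent.Y671.WD

namespace Pool.Agent.Q191.WT

namespace SvPropAux

variable {H : Type} [NormedAddCommGroup H] [InnerProductSpace ℂ H] [CompleteSpace H]

lemma approx2 {N : VonNeumannAlgebra H} {Θ : (H →L[ℂ] H) → (H →L[ℂ] H)} (h : Θ ∈ Sv N)
    (x y : H →L[ℂ] H) (ξ η ξ' η' : H) {ε : ℝ} (hε : 0 < ε) :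
    ∃ Φ ∈ Av N, ‖⟪η, Φ x ξ⟫_ℂ - ⟪η, Θ x ξ⟫_ℂ‖ < ε ∧ ‖⟪η', Φ y ξ'⟫_ℂ - ⟪η', Θ y ξ'⟫_ℂ‖ < ε := by
  obtain ⟨Φ, hΦ, h1⟩ := h 2 ![x, y] ![ξ, ξ'] ![η, η'] ε hε
  refine ⟨Φ, hΦ, ?_, ?_⟩
  · have h2 := h1 0
    simp only [Matrix.cons_val_zero, ContinuousLinearMap.sub_apply, inner_sub_right] at h2
    exact h2
  · have h2 := h1 1
    simp only [Matrix.cons_val_one, ContinuousLinearMap.sub_apply, inner_sub_right] at h2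
    exact h2

lemma norm_le {N : VonNeumannAlgebra H} {Θ : (H →L[ℂ] H) → (H →L[ℂ] H)} (h : Θ ∈ Sv N)
    (hA : ∀ Φ ∈ Av N, ∀ x, ‖Φ x‖ ≤ ‖x‖) (x : H →L[ℂ] H) : ‖Θ x‖ ≤ ‖x‖ := by
  have h1 : ∀ ξ η : H, ‖⟪η, Θ x ξ⟫_ℂ‖ ≤ ‖η‖ * (‖x‖ * ‖ξ‖) := by
    intro ξ η
    refine le_of_forall_pos_le_add fun ε hε => ?_
    obtain ⟨Φ, hΦ, h2, -⟩ := approx2 h x x ξ η ξ η hε
    have h3 : ⟪η, Θ x ξ⟫_ℂ = ⟪η, Φ x ξ⟫_ℂ - (⟪η, Φ x ξ⟫_ℂ - ⟪η, Θ x ξ⟫_ℂ) := by ring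
    rw [h3]
    refine (norm_sub_le _ _).trans (add_le_add ?_ h2.le)
    refine (norm_inner_le_norm _ _).trans (mul_le_mul_of_nonneg_left ?_ (norm_nonneg _))
    exact ((Φ x).le_opNorm _).trans (mul_le_mul_of_nonneg_right (hA Φ hΦ x) (norm_nonneg _))
  refine (Θ x).opNorm_le_bound (norm_nonneg _) fun ξ => ?_
  have h2 := h1 ξ (Θ x ξ)
  rw [inner_self_eq_norm_sq_to_K] at h2
  have h3 : ‖Θ x ξ‖ * ‖Θ x ξ‖ ≤ ‖Θ x ξ‖ * (‖x‖ * ‖ξ‖) := by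
    refine le_trans (le_of_eq ?_) h2
    simp [sq]
  rcases (norm_nonneg (Θ x ξ)).eq_or_lt with h0 | h0
  · rw [← h0]
    positivity
  · exact le_of_mul_le_mul_left h3 h0

end SvPropAux

open SvPropAux

theorem SvProp : TaskSvProp := by
  intro hav H _ _ _ N Θ hΘ
  have hav' := hav H N
  refine ⟨norm_le hΘ fun Φ hΦ => (hav' Φ hΦ).1, ?_, ?_, ?_⟩
  · intro c x
    ext ξ
    refine ext_inner_left ℂ fun η => ?_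
    refine eq_of_forall_dist_le fun ε hε => ?_
    have hc : 0 < 1 + ‖c‖ := by positivity
    obtain ⟨Φ, hΦ, h1, h2⟩ := approx2 hΘ (c • x) x ξ η ξ η (div_pos hε hc)
    have h3 : Φ (c • x) = c • Φ x := (hav' Φ hΦ).2.1 c x
    rw [h3] at h1
    have h4 : ⟪η, (c • Θ x) ξ⟫_ℂ = c * ⟪η, Θ x ξ⟫_ℂ := by
      rw [ContinuousLinearMap.smul_apply, inner_smul_right]
    have h5 : ⟪η, (c • Φ x) ξ⟫_ℂ = c * ⟪η, Φ x ξ⟫_ℂ := by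
      rw [ContinuousLinearMap.smul_apply, inner_smul_right]
    rw [h5] at h1
    rw [dist_eq_norm, h4]
    have h6 : ⟪η, Θ (c • x) ξ⟫_ℂ - c * ⟪η, Θ x ξ⟫_ℂ =
        -(c * ⟪η, Φ x ξ⟫_ℂ - ⟪η, Θ (c • x) ξ⟫_ℂ) + c * (⟪η, Φ x ξ⟫_ℂ - ⟪η, Θ x ξ⟫_ℂ) := by ring
    rw [h6]
    refine (norm_add_le _ _).trans ?_
    rw [norm_neg, norm_mul]
    have h7 : ‖c‖ * ‖⟪η, Φ x ξ⟫_ℂ - ⟪η, Θ x ξ⟫_ℂ‖ ≤ ‖c‖ * (ε / (1 + ‖c‖)) :=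
      mul_le_mul_of_nonneg_left h2.le (norm_nonneg _)
    have h8 : ε / (1 + ‖c‖) + ‖c‖ * (ε / (1 + ‖c‖)) = ε := by
      field_simp
    linarith
  · intro c
    ext ξ
    refine ext_inner_left ℂ fun η => ?_
    refine eq_of_forall_dist_le fun ε hε => ?_
    obtain ⟨Φ, hΦ, h1, -⟩ := approx2 hΘ (c • 1) (c • 1) ξ η ξ η hε
    rw [(hav' Φ hΦ).2.2.1 c] at h1
    rw [dist_comm, dist_eq_norm]
    exact h1.le
  · intro M hNM x hx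
    rw [← M.commutant_commutant, VonNeumannAlgebra.mem_commutant_iff]
    intro r hr
    have hr' := VonNeumannAlgebra.mem_commutant_iff.1 hr
    ext ξ
    refine ext_inner_left ℂ fun η => ?_
    change ⟪η, r (Θ x ξ)⟫_ℂ = ⟪η, Θ x (r ξ)⟫_ℂ
    rw [← ContinuousLinearMap.adjoint_inner_left]
    refine eq_of_forall_dist_le fun ε hε => ?_
    obtain ⟨Φ, hΦ, h1, h2⟩ := approx2 hΘ x x ξ ((ContinuousLinearMap.adjoint r) η) (r ξ) η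
      (half_pos hε)
    have h3 : r * Φ x = Φ x * r :=
      (hav' Φ hΦ).2.2.2.1 r (fun u hu => (hr' u (hNM u hu)).symm) x (hr' x hx).symm
    have h4 : ⟪(ContinuousLinearMap.adjoint r) η, Φ x ξ⟫_ℂ = ⟪η, Φ x (r ξ)⟫_ℂ := by
      rw [ContinuousLinearMap.adjoint_inner_left]
      have h5 := congrArg (fun S : H →L[ℂ] H => S ξ) h3
      change r (Φ x ξ) = Φ x (r ξ) at h5
      rw [h5]
    rw [h4] at h1
    rw [dist_eq_norm]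
    have h6 : ⟪(ContinuousLinearMap.adjoint r) η, Θ x ξ⟫_ℂ - ⟪η, Θ x (r ξ)⟫_ℂ =
        -(⟪η, Φ x (r ξ)⟫_ℂ - ⟪(ContinuousLinearMap.adjoint r) η, Θ x ξ⟫_ℂ) +
          (⟪η, Φ x (r ξ)⟫_ℂ - ⟪η, Θ x (r ξ)⟫_ℂ) := by ring
    rw [h6]
    refine (norm_add_le _ _).trans ?_
    rw [norm_neg]
    linarith

end Pool.Agent.Q191.WT
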