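import Pool.Agent.Q191.WT.Stmts

set_option autoImplicit false
open scoped InnerProductSpace
open Filter Topology Pool.Agent.Y671.WD

namespace Pool.Agent.Q191.WT

theorem SvTensor : TaskSvTensor := by
  classical
  intro hAmp hAvT hLim hSvP hAvP H₁ H₂ H _ _ _ _ _ _ _ _ _ T hT N₁ N₂ N hN Θ hΘ
  have h1 : ∀ j : Finset ((H₁ →L[ℂ] H₁) × H₁ × H₁) × ℕ, ∃ Φ ∈ Av N₁, ∀ z ∈ j.1,
      ‖⟪z.2.2, (Φ z.1 - Θ z.1) z.2.1⟫_ℂ‖ < 1 / ((j.2 : ℝ) + 1) := by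
    intro j
    obtain ⟨Φ, hΦ, hΦ2⟩ := hΘ (Fintype.card {z // z ∈ j.1})
      (fun i => ((Fintype.equivFin {z // z ∈ j.1}).symm i).1.1)
      (fun i => ((Fintype.equivFin {z // z ∈ j.1}).symm i).1.2.1)
      (fun i => ((Fintype.equivFin {z // z ∈ j.1}).symm i).1.2.2)
      (1 / ((j.2 : ℝ) + 1)) (by positivity)
    refine ⟨Φ, hΦ, fun z hz => ?_⟩
    have h2 := hΦ2 ((Fintype.equivFin {z // z ∈ j.1}) ⟨z, hz⟩)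
    simpa using h2
  choose Φ hΦ hΦ2 using h1
  have h3 : ∀ j : Finset ((H₁ →L[ℂ] H₁) × H₁ × H₁) × ℕ, ∃ Ψ ∈ Av N,
      ∀ (x : H →L[ℂ] H) (η η' : H₂) (E : H₁ →L[ℂ] H₁),
        (∀ ξ ξ', ⟪ξ', E ξ⟫_ℂ = ⟪T ξ' η', x (T ξ η)⟫_ℂ) →
        ∀ ξ ξ', ⟪ξ', Φ j E ξ⟫_ℂ = ⟪T ξ' η', Ψ x (T ξ η)⟫_ℂ :=
    fun j => hAvT hAmp H₁ H₂ H T hT N₁ N₂ N hN (Φ j) (hΦ j)
  choose Ψ hΨ hΨ2 using h3
  have h4 : ∀ j, Ψ j ∈ Sv N := by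
    intro j n x ξ η ε hε
    exact ⟨Ψ j, hΨ j, fun i => by simpa using hε⟩
  let U : Ultrafilter (Finset ((H₁ →L[ℂ] H₁) × H₁ × H₁) × ℕ) := Ultrafilter.of atTop
  have hU : (U : Filter (Finset ((H₁ →L[ℂ] H₁) × H₁ × H₁) × ℕ)) ≤ atTop := Ultrafilter.of_le atTop
  obtain ⟨Ψ', hΨ', hlim⟩ := hLim hSvP hAvP H N _ U Ψ h4
  refine ⟨Ψ', hΨ', ?_⟩
  intro x η η' E hE ξ ξ'
  have h5 : Tendsto (fun j => ⟪T ξ' η', Ψ j x (T ξ η)⟫_ℂ) U (𝓝 ⟪T ξ' η', Ψ' x (T ξ η)⟫_ℂ) :=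
    hlim x (T ξ η) (T ξ' η')
  have h6 : Tendsto (fun j => ⟪T ξ' η', Ψ j x (T ξ η)⟫_ℂ) U (𝓝 ⟪ξ', Θ E ξ⟫_ℂ) := by
    apply Tendsto.mono_left _ hU
    rw [Metric.tendsto_atTop]
    intro ε hε
    obtain ⟨n0, hn0⟩ := exists_nat_one_div_lt hε
    refine ⟨({(E, ξ, ξ')}, n0), fun j hj => ?_⟩
    have hj1 : (E, ξ, ξ') ∈ j.1 := hj.1 (Finset.mem_singleton_self _)
    have hj2 : n0 ≤ j.2 := hj.2
    rw [← hΨ2 j x η η' E hE ξ ξ', dist_eq_norm, ← inner_sub_right]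
    have h7 := hΦ2 j _ hj1
    have h8 : (1 : ℝ) / ((j.2 : ℝ) + 1) ≤ 1 / ((n0 : ℝ) + 1) := by
      apply one_div_le_one_div_of_le (by positivity)
      have : (n0 : ℝ) ≤ j.2 := by exact_mod_cast hj2
      linarith
    have h9 : (Φ j E - Θ E) ξ = Φ j E ξ - Θ E ξ := rfl
    simp only [h9] at h7
    linarith
  exact tendsto_nhds_unique h6 h5

end Pool.Agent.Q191.WT
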