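import Pool.Agent.Q191.WT.Stmts

set_option autoImplicit false
open scoped InnerProductSpace

namespace Pool.Agent.Q191.WT.TaskBack

theorem main : Pool.Agent.Q191.WT.TaskBack := by
  intro H _ _ _ N x c Θ hΘ hx n ξ η ε hε
  obtain ⟨Φ, hΦ, h⟩ := hΘ n (fun _ => x) ξ η ε hε
  refine ⟨Φ x, ?_, fun i => ?_⟩
  · let ev : ((H →L[ℂ] H) → (H →L[ℂ] H)) →ₗ[ℝ] (H →L[ℂ] H) := LinearMap.proj x
    have h1 : ev Φ ∈ ev '' (convexHull ℝ {Φ | ∃ u ∈ unitary (H →L[ℂ] H), u ∈ N ∧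
        Φ = fun x => u * x * star u}) := ⟨Φ, hΦ, rfl⟩
    rw [LinearMap.image_convexHull] at h1
    refine convexHull_mono ?_ h1
    rintro _ ⟨Ψ, ⟨u, hu, huN, rfl⟩, rfl⟩
    exact ⟨u, hu, huN, rfl⟩
  · have := h i
    rwa [hx] at this

end Pool.Agent.Q191.WT.TaskBack
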