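import Pool.Agent.Q191.WT.Stmts

set_option autoImplicit false
open scoped InnerProductSpace
open Filter Topology Pool.Agent.Y671.WD

namespace Pool.Agent.Q191.WT

theorem taskCommon : TaskCommon := by
  intro hOne hComp hProp hLim hAvP hAvC H _ _ _ N M hNM hW
  have hsub : ∀ Φ ∈ Av N, Φ ∈ Sv N := by
    intro Φ hΦ n x ξ η ε hε
    exact ⟨Φ, hΦ, fun i => by simpa using hε⟩
  have hid : (fun x : H →L[ℂ] H => x) ∈ Av N := by
    refine subset_convexHull ℝ _ ⟨1, one_mem _, one_mem N, ?_⟩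
    funext x; simp
  have hfin : ∀ s : Finset (H →L[ℂ] H), ∃ Θ ∈ Sv N, ∀ x ∈ s, x ∈ M →
      ∃ c : ℂ, Θ x = c • (1 : H →L[ℂ] H) := by
    classical
    intro s
    induction s using Finset.induction_on with
    | empty => exact ⟨_, hsub _ hid, by simp⟩
    | insert x₀ s hx₀ ih =>
      obtain ⟨Θ, hΘ, h⟩ := ih
      by_cases hM : x₀ ∈ M
      · have hy : Θ x₀ ∈ M := (hProp hAvP H N Θ hΘ).2.2.2 M hNM x₀ hM
        obtain ⟨c, hc⟩ := hW _ hy
        obtain ⟨Θ₁, hΘ₁, h1⟩ := hOne hLim hProp hAvP H N (Θ x₀) c hc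
        refine ⟨_, hComp hAvP hAvC H N Θ₁ hΘ₁ Θ hΘ, ?_⟩
        intro x hx hxM
        rcases Finset.mem_insert.mp hx with rfl | hx
        · exact ⟨c, h1⟩
        · obtain ⟨c', hc'⟩ := h x hx hxM
          refine ⟨c', ?_⟩
          show Θ₁ (Θ x) = _
          rw [hc']
          exact (hProp hAvP H N Θ₁ hΘ₁).2.2.1 c'
      · refine ⟨Θ, hΘ, ?_⟩
        intro x hx hxM
        rcases Finset.mem_insert.mp hx with rfl | hx
        · exact absurd hxM hM
        · exact h x hx hxM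
  choose Θ hΘ hΘ' using hfin
  obtain ⟨Θ', hΘ'S, hlim⟩ := hLim hProp hAvP H N _
    (Ultrafilter.of (atTop : Filter (Finset (H →L[ℂ] H)))) Θ hΘ
  refine ⟨Θ', hΘ'S, fun x hx => ?_⟩
  rcases subsingleton_or_nontrivial H with hs | hn
  · exact ⟨0, ContinuousLinearMap.ext fun v => Subsingleton.elim _ _⟩
  · obtain ⟨ξ₀, hξ₀⟩ := exists_ne (0 : H)
    have h0 : ⟪ξ₀, ξ₀⟫_ℂ ≠ 0 := inner_self_ne_zero.mpr hξ₀
    refine ⟨⟪ξ₀, Θ' x ξ₀⟫_ℂ / ⟪ξ₀, ξ₀⟫_ℂ, ?_⟩
    refine ContinuousLinearMap.ext fun ξ => ?_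
    refine ext_inner_left ℂ fun η => ?_
    have hev : ∀ᶠ s in ((Ultrafilter.of (atTop : Filter (Finset (H →L[ℂ] H))) :
        Ultrafilter (Finset (H →L[ℂ] H))) : Filter (Finset (H →L[ℂ] H))), x ∈ s :=
      (Ultrafilter.of_le atTop) (Filter.eventually_atTop.2
        ⟨{x}, fun s hs => hs (Finset.mem_singleton_self x)⟩)
    have e1 := (hlim x ξ η).mul_const ⟪ξ₀, ξ₀⟫_ℂ
    have e2 := (hlim x ξ₀ ξ₀).mul_const ⟪η, ξ⟫_ℂ
    have e4 := tendsto_nhds_unique_of_eventuallyEq e1 e2 (by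
      filter_upwards [hev] with s hs
      obtain ⟨c, hc⟩ := hΘ' s x hs hx
      rw [hc]
      simp only [ContinuousLinearMap.smul_apply, ContinuousLinearMap.one_apply, inner_smul_right]
      ring)
    simp only [ContinuousLinearMap.smul_apply, ContinuousLinearMap.one_apply, inner_smul_right]
    field_simp
    rw [← e4]
end Pool.Agent.Q191.WT
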