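import Mathlib
import Pool.Agent.Q191.WT.Asm
import Pool.Agent.Q191.WT.AvComp
import Pool.Agent.Q191.WT.AvProp
import Pool.Agent.Q191.WT.SvProp
import Pool.Agent.Q191.WT.SvComp
import Pool.Agent.Q191.WT.Lim
import Pool.Agent.Q191.WT.One
import Pool.Agent.Q191.WT.TaskBack
import Pool.Agent.Q191.WT.TaskCommon
import Pool.Agent.Q191.WT.Amp
import Pool.Agent.Q191.WT.Flip
import Pool.Agent.Q191.WT.Slice
import Pool.Agent.Q191.WT.SliceMem
import Pool.Agent.Q191.WT.AvTensor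
import Pool.Agent.Q191.WT.SvTensor
import Pool.Agent.Q191.WT.ScalarSlices

set_option autoImplicit false
open scoped InnerProductSpace
open Filter Topology Pool.Agent.Y671.WD

namespace Pool.Agent.Q191.WT

theorem final (H₁ H₂ H : Type) [NormedAddCommGroup H₁] [InnerProductSpace ℂ H₁]
    [CompleteSpace H₁] [NormedAddCommGroup H₂] [InnerProductSpace ℂ H₂] [CompleteSpace H₂]
    [NormedAddCommGroup H] [InnerProductSpace ℂ H] [CompleteSpace H] [Nontrivial H₁]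
    (T : H₁ → H₂ → H) (hT : IsTP T) (N₁ M₁ : VonNeumannAlgebra H₁) (N₂ M₂ : VonNeumannAlgebra H₂)
    (N M : VonNeumannAlgebra H) (hN : IsTensor T N₁ N₂ N) (hM : IsTensor T M₁ M₂ M)
    (h₁ : IrredFactors N₁ M₁) (h₂ : IrredFactors N₂ M₂) (hw₁ : WRDP N₁ M₁) (hw₂ : WRDP N₂ M₂) :
    IrredFactors N M ∧ WRDP N M :=
  assemble AvComp AvProp SvProp SvComp Lim One Pool.Agent.Q191.WT.TaskBack.main taskCommon Amp Flip Slice SliceMem AvTensor SvTensor
    ScalarSlices H₁ H₂ H T hT N₁ M₁ N₂ M₂ N M hN hM h₁ h₂ hw₁ hw₂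

end Pool.Agent.Q191.WT
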